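import Mathlib
import Pool.Agent.H295R2.Mol.Defs

/-!
# The optimal mollification exponent: pointwise bound to the right of the line (task 5a, helper503)
-/

set_option autoImplicit false

open MeasureTheory Filter Topology Set
open scoped ENNReal

namespace Pool.Agent.H503R2.Mol

open Pool.Agent.H295R2.Mol

lemma gauss_le (m u : ℝ) (hm : 0 ≤ m) :
    Real.exp (-(u ^ 2)) ≤ Real.exp (m ^ 2 / 4) * (1 + |u|) ^ (-m) := by
  have h1 : (0 : ℝ) < 1 + |u| := by positivity
  rw [Real.rpow_neg h1.le, ← div_eq_mul_inv, le_div_iff₀ (Real.rpow_pos_of_pos h1 m)]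
  have h2 : (1 + |u|) ^ m ≤ Real.exp (m * |u|) := by
    have : 1 + |u| ≤ Real.exp |u| := by linarith [Real.add_one_le_exp |u|]
    calc (1 + |u|) ^ m ≤ (Real.exp |u|) ^ m := Real.rpow_le_rpow h1.le this hm
      _ = Real.exp (m * |u|) := by rw [← Real.exp_mul, mul_comm]
  calc Real.exp (-(u ^ 2)) * (1 + |u|) ^ m
      ≤ Real.exp (-(u ^ 2)) * Real.exp (m * |u|) := by gcongr
    _ = Real.exp (-(u ^ 2) + m * |u|) := (Real.exp_add _ _).symm
    _ ≤ Real.exp (m ^ 2 / 4) := by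
      apply Real.exp_le_exp.2
      nlinarith [sq_nonneg (|u| - m / 2), sq_abs u]

lemma shift_le (m t t0 : ℝ) (hm : 0 ≤ m) :
    (1 + |t - t0|) ^ (-m) ≤ (1 + |t0|) ^ m * (1 + |t|) ^ (-m) := by
  have h1 : (0 : ℝ) < 1 + |t - t0| := by positivity
  have h2 : (0 : ℝ) < 1 + |t0| := by positivity
  have h3 : (0 : ℝ) < 1 + |t| := by positivity
  have h4 : 1 + |t| ≤ (1 + |t0|) * (1 + |t - t0|) := by
    have h : |t| ≤ |t0| + |t - t0| := by
      have := abs_add_le t0 (t - t0)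
      simpa using this
    nlinarith [abs_nonneg t0, abs_nonneg (t - t0), mul_nonneg (abs_nonneg t0) (abs_nonneg (t - t0))]
  have h5 : (1 + |t|) ^ m ≤ (1 + |t0|) ^ m * (1 + |t - t0|) ^ m := by
    rw [← Real.mul_rpow h2.le h1.le]
    exact Real.rpow_le_rpow h3.le h4 hm
  rw [Real.rpow_neg h1.le, Real.rpow_neg h3.le, ← div_eq_mul_inv, inv_eq_one_div,
    div_le_div_iff₀ (Real.rpow_pos_of_pos h1 m) (Real.rpow_pos_of_pos h3 m), one_mul]
  exact h5

lemma norm_expsq (x t : ℝ) (s0 : ℂ) :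
    ‖Complex.exp (((x : ℂ) + t * Complex.I - s0) ^ 2)‖ =
      Real.exp ((x - s0.re) ^ 2 - (t - s0.im) ^ 2) := by
  rw [Complex.norm_exp]
  congr 1
  simp [pow_two, Complex.mul_re]

lemma norm_explin (x t L : ℝ) (s0 : ℂ) :
    ‖Complex.exp (-((x : ℂ) + t * Complex.I - s0) * (L : ℂ))‖ = Real.exp (-(x - s0.re) * L) := by
  rw [Complex.norm_exp]
  congr 1
  simp [Complex.mul_re]

lemma norm_den (x t : ℝ) (s0 : ℂ) : |x - s0.re| ≤ ‖(x : ℂ) + t * Complex.I - s0‖ := by
  have := Complex.abs_re_le_norm ((x : ℂ) + t * Complex.I - s0)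
  simpa using this

/-- the kernel on a vertical line -/
lemma norm_kernel (x t d : ℝ) (s0 : ℂ) (hd : 0 < d) (hx : d ≤ |x - s0.re|) :
    ‖Complex.exp (((x : ℂ) + t * Complex.I - s0) ^ 2) / ((x : ℂ) + t * Complex.I - s0)‖ ≤
      Real.exp ((x - s0.re) ^ 2) / d * Real.exp (-((t - s0.im) ^ 2)) := by
  rw [norm_div, norm_expsq, sub_eq_add_neg ((x - s0.re) ^ 2), Real.exp_add, div_mul_eq_mul_div]
  exact div_le_div_of_nonneg_left (by positivity) hd (hx.trans (norm_den x t s0))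

lemma norm_DP_le (N : ℕ) (a : ℕ → ℂ) (s : ℂ) :
    ‖DP N a s‖ ≤ ∑ n ∈ Finset.Icc 1 N, ‖a n‖ * (n : ℝ) ^ (-s.re) := by
  unfold DP
  refine (norm_sum_le _ _).trans (le_of_eq ?_)
  refine Finset.sum_congr rfl fun n hn => ?_
  have hn1 : 0 < n := (Finset.mem_Icc.1 hn).1
  rw [norm_mul, Complex.norm_natCast_cpow_of_pos hn1]
  simp

lemma norm_DP_strip (N : ℕ) (a : ℕ → ℂ) (σ : ℝ) (s : ℂ) (hs : σ ≤ s.re) :
    ‖DP N a s‖ ≤ ∑ n ∈ Finset.Icc 1 N, ‖a n‖ * (n : ℝ) ^ |σ| := by
  refine (norm_DP_le N a s).trans (Finset.sum_le_sum fun n hn => ?_)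
  have hn1 : (1 : ℝ) ≤ n := by exact_mod_cast (Finset.mem_Icc.1 hn).1
  refine mul_le_mul_of_nonneg_left ?_ (norm_nonneg _)
  refine Real.rpow_le_rpow_of_exponent_le hn1 ?_
  have := neg_abs_le σ
  linarith

lemma norm_DP_right (N : ℕ) (a : ℕ → ℂ) (s : ℂ) (hs : 0 ≤ s.re) (A : ℝ)
    (ha : ∀ n ∈ Finset.Icc 1 N, ‖a n‖ ≤ A) : ‖DP N a s‖ ≤ N * A := by
  refine (norm_DP_le N a s).trans ?_
  calc ∑ n ∈ Finset.Icc 1 N, ‖a n‖ * (n : ℝ) ^ (-s.re) ≤ ∑ _n ∈ Finset.Icc 1 N, A := by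
        refine Finset.sum_le_sum fun n hn => ?_
        have hn1 : (1 : ℝ) ≤ n := by exact_mod_cast (Finset.mem_Icc.1 hn).1
        have h1 : (n : ℝ) ^ (-s.re) ≤ 1 := Real.rpow_le_one_of_one_le_of_nonpos hn1 (by linarith)
        have h2 : 0 ≤ ‖a n‖ := norm_nonneg _
        have h3 := ha n hn
        calc ‖a n‖ * (n : ℝ) ^ (-s.re) ≤ ‖a n‖ * 1 := mul_le_mul_of_nonneg_left h1 h2
          _ ≤ A := by linarith
    _ = N * A := by simp

lemma diff_DP (N : ℕ) (a : ℕ → ℂ) : Differentiable ℂ (DP N a) := by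
  unfold DP
  refine Differentiable.fun_sum fun n hn => ?_
  have hn1 : (n : ℂ) ≠ 0 := by
    have := (Finset.mem_Icc.1 hn).1
    exact_mod_cast (by omega : n ≠ 0)
  refine (differentiable_const _).mul ?_
  exact (differentiable_neg).const_cpow (Or.inl hn1)

lemma diff_GG (F : ℂ → ℂ) (hF : Differentiable ℂ F) (N : ℕ) (a : ℕ → ℂ) :
    Differentiable ℂ (GG F N a) := by
  unfold GG
  exact (differentiable_const _).sub (hF.mul (diff_DP N a))

/-- `F` is bounded on the vertical lines to the right of `1` -/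
lemma bdd_right (lam mu : ℕ → ℂ) (F : ℂ → ℂ) (hF : LF lam mu F) (c : ℝ) (hc : 1 < c) :
    ∃ Mf : ℝ, 0 ≤ Mf ∧ ∀ t : ℝ, ‖F (c + t * Complex.I)‖ ≤ Mf := by
  refine ⟨∑' n, ‖LSeries.term lam (c : ℂ) n‖, tsum_nonneg fun _ => norm_nonneg _, fun t => ?_⟩
  have hre : ((c : ℂ) + t * Complex.I).re = c := by simp
  have h1 := hF.series ((c : ℂ) + t * Complex.I) (by rw [hre]; exact hc)
  have h0 := hF.series (c : ℂ) (by simpa using hc)
  have heq : ∀ n, ‖LSeries.term lam ((c : ℂ) + t * Complex.I) n‖ =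
      ‖LSeries.term lam (c : ℂ) n‖ := by
    intro n
    rw [LSeries.norm_term_eq, LSeries.norm_term_eq, hre, Complex.ofReal_re]
  have hs : Summable fun n => ‖LSeries.term lam ((c : ℂ) + t * Complex.I) n‖ := by
    simp only [heq]
    exact h0.summable.norm
  have h2 : F (c + t * Complex.I) = ∑' n, LSeries.term lam ((c : ℂ) + t * Complex.I) n :=
    h1.tsum_eq.symm
  rw [h2]
  calc ‖∑' n, LSeries.term lam ((c : ℂ) + t * Complex.I) n‖
      ≤ ∑' n, ‖LSeries.term lam ((c : ℂ) + t * Complex.I) n‖ := norm_tsum_le_tsum_norm hs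
    _ = ∑' n, ‖LSeries.term lam (c : ℂ) n‖ := by simp only [heq]

lemma integrable_gauss (t0 : ℝ) : Integrable (fun t : ℝ => Real.exp (-((t - t0) ^ 2))) := by
  have h := (integrable_exp_neg_mul_sq (b := 1) one_pos).comp_sub_right t0
  refine h.congr (Filter.Eventually.of_forall fun t => ?_)
  simp

lemma integral_gauss (t0 : ℝ) : ∫ t : ℝ, Real.exp (-((t - t0) ^ 2)) = Real.sqrt Real.pi := by
  have h := integral_gaussian 1
  have h2 := integral_sub_right_eq_self (μ := volume) (fun t : ℝ => Real.exp (-(t ^ 2))) t0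
  rw [h2]
  simpa using h

/-- T5a -/
theorem stepR (h1 : Cauchy) (h2 : Hold) (h3 : Coef) : StepR := by
  intro lam mu F hF p w σ hp δ κ b K hδ hκ
  obtain ⟨C0, B0, hC0, hB0, hco⟩ := h3 lam mu F hF p w σ hp
  obtain ⟨C1, hC1, hhold⟩ := h2 p w hp
  set κ' : ℝ := κ / (|b - σ| + 1) with hκ'def
  have hκ' : 0 < κ' := by positivity
  set c : ℝ := max (max 2 (b + 1)) (b + (B0 + 1 + K) / κ') with hcdef
  have hc2 : 2 ≤ c := (le_max_left _ _).trans (le_max_left _ _)
  have hcb : b + 1 ≤ c := (le_max_right _ _).trans (le_max_left _ _)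
  have hcK : B0 + 1 + K ≤ κ' * (c - b) := by
    have h : b + (B0 + 1 + K) / κ' ≤ c := le_max_right _ _
    have h' : (B0 + 1 + K) / κ' ≤ c - b := by linarith
    rw [div_le_iff₀ hκ'] at h'
    linarith
  obtain ⟨Mf, hMf0, hMf⟩ := bdd_right lam mu F hF c (by linarith)
  obtain ⟨Cf, Af, hgrow⟩ := hF.growth σ c
  set m : ℝ := |w| + 2 with hm
  have hm0 : 0 < m := by positivity
  set C2 : ℝ := (1 + Mf * C0) * Real.exp ((c - σ) ^ 2) * Real.sqrt Real.pi with hC2
  set C3 : ℝ := Real.exp ((b - σ) ^ 2) / δ * Real.exp (m ^ 2 / 4) with hC3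
  have hC2' : 0 < C2 := by
    have : 0 < Real.sqrt Real.pi := Real.sqrt_pos.2 Real.pi_pos
    positivity
  have hC3' : 0 < C3 := by positivity
  refine ⟨C2 + C1 * C3, m, by positivity, hm0, ?_⟩
  intro N a hN hnrm s0 hs1 hs2
  have hN1 : (1 : ℝ) ≤ N := by exact_mod_cast hN
  have hN0 : (0 : ℝ) < N := by linarith
  set L : ℝ := κ' * Real.log N with hL
  have hLpow : ∀ y : ℝ, Real.exp (y * L) = (N : ℝ) ^ (κ' * y) := by
    intro y
    rw [Real.rpow_def_of_pos hN0, hL]
    congr 1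
    ring
  have hGdiff := diff_GG F hF.entire N a
  have hHdiff : Differentiable ℂ (fun s : ℂ => GG F N a s * Complex.exp (-(s - s0) * (L : ℂ))) := by
    refine hGdiff.mul ?_
    exact (((differentiable_id.sub_const s0).neg).mul_const _).cexp
  have hσre : σ < s0.re := by linarith
  have hrec : s0.re < c := by linarith
  -- growth
  have hHgrow : ∃ C A : ℝ, ∀ s : ℂ, σ ≤ s.re → s.re ≤ c →
      ‖GG F N a s * Complex.exp (-(s - s0) * (L : ℂ))‖ ≤ C * (1 + |s.im|) ^ A := by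
    set D : ℝ := ∑ n ∈ Finset.Icc 1 N, ‖a n‖ * (n : ℝ) ^ |σ| with hD
    have hD0 : 0 ≤ D := Finset.sum_nonneg fun n _ => by positivity
    refine ⟨(1 + |Cf| * D) * Real.exp ((c - σ) * |L|), max Af 0, fun s hs hs' => ?_⟩
    have e1 : ‖Complex.exp (-(s - s0) * (L : ℂ))‖ ≤ Real.exp ((c - σ) * |L|) := by
      rw [Complex.norm_exp]
      apply Real.exp_le_exp.2
      have : (-(s - s0) * (L : ℂ)).re = (s0.re - s.re) * L := by
        simp [Complex.mul_re]
      rw [this]
      have h5 : |s0.re - s.re| ≤ c - σ := by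
        rw [abs_le]
        constructor <;> linarith
      calc (s0.re - s.re) * L ≤ |(s0.re - s.re) * L| := le_abs_self _
        _ = |s0.re - s.re| * |L| := abs_mul _ _
        _ ≤ (c - σ) * |L| := mul_le_mul_of_nonneg_right h5 (abs_nonneg _)
    have hone : (1 : ℝ) ≤ 1 + |s.im| := by linarith [abs_nonneg s.im]
    have e2 : ‖GG F N a s‖ ≤ (1 + |Cf| * D) * (1 + |s.im|) ^ (max Af 0) := by
      have h5 : (1 : ℝ) ≤ (1 + |s.im|) ^ (max Af 0) := Real.one_le_rpow hone (le_max_right _ _)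
      have h6 : ‖F s‖ ≤ |Cf| * (1 + |s.im|) ^ (max Af 0) := by
        calc ‖F s‖ ≤ Cf * (1 + |s.im|) ^ Af := hgrow s hs hs'
          _ ≤ |Cf| * (1 + |s.im|) ^ Af :=
              mul_le_mul_of_nonneg_right (le_abs_self _) (Real.rpow_nonneg (by linarith) _)
          _ ≤ _ := mul_le_mul_of_nonneg_left
              (Real.rpow_le_rpow_of_exponent_le hone (le_max_left _ _)) (abs_nonneg _)
      calc ‖GG F N a s‖ ≤ ‖(1 : ℂ)‖ + ‖F s * DP N a s‖ := norm_sub_le _ _
        _ ≤ 1 + (|Cf| * (1 + |s.im|) ^ (max Af 0)) * D := by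
            rw [norm_one, norm_mul]
            have := mul_le_mul h6 (norm_DP_strip N a σ s hs) (norm_nonneg _) (by positivity)
            linarith
        _ ≤ _ := by nlinarith
    rw [norm_mul]
    calc ‖GG F N a s‖ * ‖Complex.exp (-(s - s0) * (L : ℂ))‖
        ≤ ((1 + |Cf| * D) * (1 + |s.im|) ^ (max Af 0)) * Real.exp ((c - σ) * |L|) :=
          mul_le_mul e2 e1 (norm_nonneg _) (by positivity)
      _ = _ := by ring
  have hC := h1 (fun s : ℂ => GG F N a s * Complex.exp (-(s - s0) * (L : ℂ))) σ c s0 hσre hrec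
    hHdiff hHgrow
  have hHs0 : GG F N a s0 * Complex.exp (-(s0 - s0) * (L : ℂ)) = GG F N a s0 := by simp
  simp only [hHs0] at hC
  -- the right line
  have hcoN := hco N a hN hnrm
  have hKc : (N : ℝ) ^ (B0 + 1) * (N : ℝ) ^ (-(κ' * (c - s0.re))) ≤ (N : ℝ) ^ (-K) := by
    rw [← Real.rpow_add hN0]
    apply Real.rpow_le_rpow_of_exponent_le hN1
    have : κ' * (c - b) ≤ κ' * (c - s0.re) := mul_le_mul_of_nonneg_left (by linarith) hκ'.le
    linarith
  have hright : ‖∫ t : ℝ, (GG F N a (c + t * Complex.I) *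
      Complex.exp (-((c : ℂ) + t * Complex.I - s0) * (L : ℂ))) *
      (Complex.exp (((c : ℂ) + t * Complex.I - s0) ^ 2) / ((c : ℂ) + t * Complex.I - s0))‖ ≤
      C2 * (N : ℝ) ^ (-K) := by
    have hb : ∀ t : ℝ, ‖(GG F N a (c + t * Complex.I) *
        Complex.exp (-((c : ℂ) + t * Complex.I - s0) * (L : ℂ))) *
        (Complex.exp (((c : ℂ) + t * Complex.I - s0) ^ 2) / ((c : ℂ) + t * Complex.I - s0))‖ ≤
        ((1 + Mf * C0) * Real.exp ((c - σ) ^ 2) * (N : ℝ) ^ (-K)) *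
          Real.exp (-((t - s0.im) ^ 2)) := by
      intro t
      have g1 : ‖GG F N a (c + t * Complex.I)‖ ≤ (1 + Mf * C0) * (N : ℝ) ^ (B0 + 1) := by
        have h5 : ‖DP N a (c + t * Complex.I)‖ ≤ N * (C0 * (N : ℝ) ^ B0) :=
          norm_DP_right N a _ (by simp; linarith) _ hcoN
        have h6 : (N : ℝ) ^ (B0 + 1) = N * (N : ℝ) ^ B0 := by
          rw [Real.rpow_add_one hN0.ne', mul_comm]
        have h7 : (1 : ℝ) ≤ (N : ℝ) ^ (B0 + 1) := Real.one_le_rpow hN1 (by linarith)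
        calc ‖GG F N a (c + t * Complex.I)‖
            ≤ ‖(1 : ℂ)‖ + ‖F (c + t * Complex.I) * DP N a (c + t * Complex.I)‖ := norm_sub_le _ _
          _ ≤ 1 + Mf * (N * (C0 * (N : ℝ) ^ B0)) := by
              rw [norm_one, norm_mul]
              have := mul_le_mul (hMf t) h5 (norm_nonneg _) hMf0
              linarith
          _ = 1 + Mf * C0 * (N : ℝ) ^ (B0 + 1) := by rw [h6]; ring
          _ ≤ _ := by nlinarith
      have g2 := norm_explin c t L s0
      have g3 : Real.exp (-(c - s0.re) * L) = (N : ℝ) ^ (-(κ' * (c - s0.re))) := by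
        rw [hLpow]; congr 1; ring
      have g4 := norm_kernel c t 1 s0 one_pos (by
        rw [abs_of_nonneg (by linarith)]; linarith)
      have g5 : Real.exp ((c - s0.re) ^ 2) ≤ Real.exp ((c - σ) ^ 2) := by
        apply Real.exp_le_exp.2
        apply pow_le_pow_left₀ (by linarith)
        linarith
      rw [norm_mul, norm_mul, g2, g3]
      calc ‖GG F N a (c + t * Complex.I)‖ * (N : ℝ) ^ (-(κ' * (c - s0.re))) *
          ‖Complex.exp (((c : ℂ) + t * Complex.I - s0) ^ 2) / ((c : ℂ) + t * Complex.I - s0)‖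
          ≤ ((1 + Mf * C0) * (N : ℝ) ^ (B0 + 1)) * (N : ℝ) ^ (-(κ' * (c - s0.re))) *
            (Real.exp ((c - s0.re) ^ 2) / 1 * Real.exp (-((t - s0.im) ^ 2))) := by
            gcongr
        _ = (1 + Mf * C0) * ((N : ℝ) ^ (B0 + 1) * (N : ℝ) ^ (-(κ' * (c - s0.re)))) *
            (Real.exp ((c - s0.re) ^ 2) * Real.exp (-((t - s0.im) ^ 2))) := by ring
        _ ≤ (1 + Mf * C0) * (N : ℝ) ^ (-K) *
            (Real.exp ((c - σ) ^ 2) * Real.exp (-((t - s0.im) ^ 2))) := by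
            gcongr
        _ = _ := by ring
    refine (norm_integral_le_of_norm_le ((integrable_gauss s0.im).const_mul _)
      (Filter.Eventually.of_forall hb)).trans (le_of_eq ?_)
    rw [integral_const_mul, integral_gauss, hC2]
    ring
  -- the left line
  have hden : ∀ t : ℝ, (σ : ℂ) + t * Complex.I - s0 ≠ 0 := by
    intro t h0
    have := norm_den σ t s0
    rw [h0, norm_zero] at this
    have h5 : |σ - s0.re| = s0.re - σ := by rw [abs_sub_comm, abs_of_pos (by linarith)]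
    linarith
  have hleft : ‖∫ t : ℝ, (GG F N a (σ + t * Complex.I) *
      Complex.exp (-((σ : ℂ) + t * Complex.I - s0) * (L : ℂ))) *
      (Complex.exp (((σ : ℂ) + t * Complex.I - s0) ^ 2) / ((σ : ℂ) + t * Complex.I - s0))‖ ≤
      C1 * ((N : ℝ) ^ κ * C3 * (1 + |s0.im|) ^ m) * (nrm F p w σ N a).toReal := by
    have hM0 : 0 ≤ (N : ℝ) ^ κ * C3 * (1 + |s0.im|) ^ m := by positivity
    have hh := hhold (fun t : ℝ => GG F N a (σ + t * Complex.I))
      (fun t : ℝ => Complex.exp (-((σ : ℂ) + t * Complex.I - s0) * (L : ℂ)) *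
        (Complex.exp (((σ : ℂ) + t * Complex.I - s0) ^ 2) / ((σ : ℂ) + t * Complex.I - s0)))
      ((N : ℝ) ^ κ * C3 * (1 + |s0.im|) ^ m)
      (hGdiff.continuous.comp (by fun_prop))
      (by
        refine Continuous.mul (by fun_prop) ?_
        exact Continuous.div (by fun_prop) (by fun_prop) hden)
      hM0
      (by
        intro t
        rw [norm_mul, norm_explin]
        have g3 : Real.exp (-(σ - s0.re) * L) ≤ (N : ℝ) ^ κ := by
          rw [hLpow]
          apply Real.rpow_le_rpow_of_exponent_le hN1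
          have hbσ : 0 ≤ b - σ := by linarith
          have h5 : κ' * (-(σ - s0.re)) ≤ κ' * (|b - σ| + 1) := by
            apply mul_le_mul_of_nonneg_left _ hκ'.le
            rw [abs_of_nonneg hbσ]
            linarith
          have h6 : κ' * (|b - σ| + 1) = κ := by
            rw [hκ'def]
            field_simp
          linarith
        have g4 := norm_kernel σ t δ s0 hδ (by
          rw [abs_sub_comm, abs_of_nonneg (by linarith)]; linarith)
        have g5 : Real.exp ((σ - s0.re) ^ 2) ≤ Real.exp ((b - σ) ^ 2) := by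
          apply Real.exp_le_exp.2
          have : (σ - s0.re) ^ 2 = (s0.re - σ) ^ 2 := by ring
          rw [this]
          apply pow_le_pow_left₀ (by linarith)
          linarith
        have g6 : Real.exp (-((t - s0.im) ^ 2)) ≤
            Real.exp (m ^ 2 / 4) * ((1 + |s0.im|) ^ m * (1 + |t|) ^ (-w - 2)) := by
          refine (gauss_le m (t - s0.im) hm0.le).trans ?_
          refine mul_le_mul_of_nonneg_left ?_ (Real.exp_pos _).le
          refine (shift_le m t s0.im hm0.le).trans ?_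
          refine mul_le_mul_of_nonneg_left ?_ (Real.rpow_nonneg (by positivity) _)
          apply Real.rpow_le_rpow_of_exponent_le (by linarith [abs_nonneg t])
          have := le_abs_self w
          rw [hm]
          linarith
        calc Real.exp (-(σ - s0.re) * L) *
            ‖Complex.exp (((σ : ℂ) + t * Complex.I - s0) ^ 2) / ((σ : ℂ) + t * Complex.I - s0)‖
            ≤ (N : ℝ) ^ κ * (Real.exp ((σ - s0.re) ^ 2) / δ * Real.exp (-((t - s0.im) ^ 2))) := by
              gcongr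
          _ ≤ (N : ℝ) ^ κ * (Real.exp ((b - σ) ^ 2) / δ *
              (Real.exp (m ^ 2 / 4) * ((1 + |s0.im|) ^ m * (1 + |t|) ^ (-w - 2)))) := by
              gcongr
          _ = _ := by rw [hC3]; ring)
      (by
        have h5 : nrm F p w σ N a ≠ ⊤ := ne_top_of_le_ne_top ENNReal.one_ne_top hnrm
        exact h5)
    have heq : (fun t : ℝ => (GG F N a (σ + t * Complex.I) *
        Complex.exp (-((σ : ℂ) + t * Complex.I - s0) * (L : ℂ))) *
        (Complex.exp (((σ : ℂ) + t * Complex.I - s0) ^ 2) / ((σ : ℂ) + t * Complex.I - s0))) =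
        fun t : ℝ => GG F N a (σ + t * Complex.I) *
        (Complex.exp (-((σ : ℂ) + t * Complex.I - s0) * (L : ℂ)) *
        (Complex.exp (((σ : ℂ) + t * Complex.I - s0) ^ 2) / ((σ : ℂ) + t * Complex.I - s0))) := by
      funext t
      ring
    rw [heq]
    exact hh
  -- conclusion
  have hnorm : 2 * Real.pi * ‖GG F N a s0‖ ≤ C2 * (N : ℝ) ^ (-K) +
      C1 * ((N : ℝ) ^ κ * C3 * (1 + |s0.im|) ^ m) * (nrm F p w σ N a).toReal := by
    have h5 : ‖2 * (Real.pi : ℂ) * GG F N a s0‖ = 2 * Real.pi * ‖GG F N a s0‖ := by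
      rw [norm_mul, norm_mul, Complex.norm_real, Real.norm_of_nonneg Real.pi_pos.le]
      simp
    rw [← h5, hC]
    exact (norm_sub_le _ _).trans (add_le_add hright hleft)
  set R : ℝ := (nrm F p w σ N a).toReal with hR
  have hR0 : 0 ≤ R := ENNReal.toReal_nonneg
  have hG0 : 0 ≤ ‖GG F N a s0‖ := norm_nonneg _
  have hπ : 1 ≤ 2 * Real.pi := by linarith [Real.pi_gt_three]
  have hlow : ‖GG F N a s0‖ ≤ 2 * Real.pi * ‖GG F N a s0‖ := by nlinarith
  have hx1 : 1 ≤ (1 + |s0.im|) ^ m := Real.one_le_rpow (by linarith [abs_nonneg s0.im]) hm0.le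
  have hx2 : 1 ≤ (N : ℝ) ^ κ := Real.one_le_rpow hN1 hκ.le
  have hx3 : 0 < (N : ℝ) ^ (-K) := Real.rpow_pos_of_pos hN0 _
  set P : ℝ := (1 + |s0.im|) ^ m with hP
  set Q : ℝ := (N : ℝ) ^ κ with hQ
  set Z : ℝ := (N : ℝ) ^ (-K) with hZ
  have hPQ : 1 ≤ P * Q := by nlinarith
  calc ‖GG F N a s0‖ ≤ C2 * Z + C1 * (Q * C3 * P) * R := hlow.trans hnorm
    _ ≤ C2 * (P * Q * Z) + (C1 * C3) * (P * Q) * R + C2 * (P * Q) * R + C1 * C3 * (P * Q * Z) := by
        have i1 : C2 * Z ≤ C2 * (P * Q * Z) := by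
          apply mul_le_mul_of_nonneg_left _ hC2'.le
          nlinarith
        have i2 : 0 ≤ C2 * (P * Q) * R := by positivity
        have i3 : 0 ≤ C1 * C3 * (P * Q * Z) := by positivity
        have i4 : C1 * (Q * C3 * P) * R = (C1 * C3) * (P * Q) * R := by ring
        linarith
    _ = (C2 + C1 * C3) * P * Q * (R + Z) := by ring

end Pool.Agent.H503R2.Mol
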